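import Pool.Agent.Y184.RB.Base2

/-!
# Project RB, part Loc: local smoothing of `(1 - t) φ + t ψ` (by helper153)
-/

set_option autoImplicit false

open Set Topology Filter
open scoped ContDiff Manifold

namespace Pool.Agent.Y153.RB

open Pool.Agent.Y184.RB

section

variable {n : ℕ} {Y : Type} [TopologicalSpace Y] [ChartedSpace (En n) Y]

/-- discs are smooth -/
theorem disc_real {f : ℂ → Y} (h : IsDisc n f) : ContMDiffAt 𝓘(ℝ, ℂ) 𝓘(ℝ, En n) ∞ f 0 := by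
  unfold IsDisc at h
  rw [contMDiffAt_iff] at h ⊢
  refine ⟨h.1, ?_⟩
  have h2 : ContDiffWithinAt ℝ ω _ _ _ := h.2.restrict_scalars ℝ
  exact h2.of_le le_top

theorem sm_comp {f : ℂ → Y} (h : IsDisc n f) {g : Y → ℝ}
    (hg : ContMDiffAt 𝓘(ℝ, En n) 𝓘(ℝ, ℝ) ∞ g (f 0)) :
    ContDiffAt ℝ 2 (fun ζ : ℂ => g (f ζ)) 0 := by
  have h1 : ContMDiffAt 𝓘(ℝ, ℂ) 𝓘(ℝ, ℝ) ∞ (g ∘ f) 0 := ContMDiffAt.comp (0 : ℂ) hg (disc_real h)
  exact (contMDiffAt_iff_contDiffAt.1 h1).of_le (by norm_cast)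

/-- the value of the form by another potential -/
theorem val_eq (θ : Form n Y) {p : Y} {f : ℂ → Y} (h : IsDisc n f)
    (hs : ContMDiffAt 𝓘(ℝ, En n) 𝓘(ℝ, ℝ) ∞ (θ.pot p) (f 0))
    (hc : Laplacian.laplacian (fun ζ : ℂ => θ.pot p (f ζ) - θ.pot (f 0) (f ζ)) 0 = 0) :
    Laplacian.laplacian (fun ζ : ℂ => θ.pot p (f ζ)) 0 = θ.val f := by
  have h1 := sm_comp h hs
  have h2 := sm_comp h (θ.smooth (f 0)).self_of_nhds
  have h3 := h1.laplacian_sub h2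
  unfold Form.val
  have h4 : ((fun ζ : ℂ => θ.pot p (f ζ)) - fun ζ : ℂ => θ.pot (f 0) (f ζ)) =
      fun ζ : ℂ => θ.pot p (f ζ) - θ.pot (f 0) (f ζ) := rfl
  rw [h4, hc] at h3
  linarith

end

theorem loc' (hReal : StReal) (hLev : StLevN) (hSm : StSmE) (hSub : StSub2) : StLoc := by
  intro n Y _ _ hM _ Ω θ φ ψ p δ t hφ hφp hψ hδ ht0 ht1
  have hR := hReal n Y hM
  obtain ⟨N1, hN1, hD1⟩ := hφp
  obtain ⟨N2, hN2, hD2⟩ := hSub n Y hM Ω θ ψ δ p hψ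
  obtain ⟨e, he⟩ : ∃ e, e = chartAt (En n) p := ⟨_, rfl⟩
  have hpe : p ∈ e.source := he ▸ mem_chart_source _ p
  have hev : ∀ᶠ q in 𝓝 p, (q ∈ N1 ∧ q ∈ N2) ∧
      (ContMDiffAt 𝓘(ℝ, En n) 𝓘(ℝ, ℝ) ∞ (θ.pot p) q ∧
        ContMDiffAt 𝓘(ℝ, En n) 𝓘(ℝ, ℝ) ∞ (Ω.pot p) q ∧
        ContMDiffAt 𝓘(ℝ, En n) 𝓘(ℝ, ℝ) ∞ ψ q) ∧
      ((∀ f : ℂ → Y, IsDisc n f → f 0 = q →
        Laplacian.laplacian (fun ζ : ℂ => θ.pot p (f ζ) - θ.pot q (f ζ)) 0 = 0) ∧
      (∀ f : ℂ → Y, IsDisc n f → f 0 = q →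
        Laplacian.laplacian (fun ζ : ℂ => Ω.pot p (f ζ) - Ω.pot q (f ζ)) 0 = 0)) := by
    filter_upwards [hN1, hN2, θ.smooth p, Ω.smooth p, hψ, θ.compat p, Ω.compat p] with
      q h1 h2 h3 h4 h5 h6 h7
    exact ⟨⟨h1, h2⟩, ⟨h3, h4, h5.1⟩, h6, h7⟩
  obtain ⟨O, hOp, hO, hpO⟩ := eventually_nhds_iff.1 hev
  -- the radius
  have hz0 : e p ∈ e.target := e.map_source hpe
  have hmem : e.target ∩ e.symm ⁻¹' O ∈ 𝓝 (e p) := by
    refine inter_mem (e.open_target.mem_nhds hz0) ?_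
    apply e.continuousAt_symm hz0
    rw [e.left_inv hpe]
    exact hO.mem_nhds hpO
  obtain ⟨r, hr, hball⟩ := Metric.mem_nhds_iff.1 hmem
  -- the two functions
  obtain ⟨A, hAdef⟩ : ∃ A : Y → ℝ, A = fun q => θ.pot p q + φ q := ⟨_, rfl⟩
  obtain ⟨B, hBdef⟩ : ∃ B : Y → ℝ, B = fun q => θ.pot p q + ψ q - δ * Ω.pot p q := ⟨_, rfl⟩
  have hA : ∀ q ∈ O, ContinuousAt A q := by
    intro q hq
    rw [hAdef]
    exact (hOp q hq).2.1.1.continuousAt.add hφ.continuousAt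
  have hB : ∀ q ∈ O, ContinuousAt B q := by
    intro q hq
    rw [hBdef]
    exact ((hOp q hq).2.1.1.continuousAt.add (hOp q hq).2.1.2.2.continuousAt).sub
      (continuousAt_const.mul (hOp q hq).2.1.2.1.continuousAt)
  obtain ⟨G, hGdef⟩ : ∃ G : En n → ℝ, G = fun z => (1 - t) * A (e.symm z) + t * B (e.symm z) :=
    ⟨_, rfl⟩
  have hcont : ContinuousOn G (Metric.ball (e p) r) := by
    intro z hz
    have h1 := (hball hz).1
    have h2 : e.symm z ∈ O := (hball hz).2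
    have h3 : ContinuousAt e.symm z := e.continuousAt_symm h1
    have h4 : ContinuousAt (fun z => A (e.symm z)) z := ContinuousAt.comp (hA _ h2) h3
    have h5 : ContinuousAt (fun z => B (e.symm z)) z := ContinuousAt.comp (hB _ h2) h3
    rw [hGdef]
    exact ((continuousAt_const.mul h4).add (continuousAt_const.mul h5)).continuousWithinAt
  have hsub : ∀ z v : En n, ‖z - e p‖ + ‖v‖ < r →
      G z ≤ Real.circleAverage (fun ζ : ℂ => G (z + ζ • v)) 0 1 := by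
    intro z v hzv
    have hin : ∀ ζ : ℂ, ‖ζ‖ ≤ 1 → z + ζ • v ∈ Metric.ball (e p) r := by
      intro ζ hζ
      rw [Metric.mem_ball, dist_eq_norm]
      have h1 : z + ζ • v - e p = (z - e p) + ζ • v := by abel
      have h2 : ‖ζ • v‖ ≤ ‖v‖ := by
        rw [norm_smul]
        have := mul_le_mul_of_nonneg_right hζ (norm_nonneg v)
        linarith
      rw [h1]
      have h3 := norm_add_le (z - e p) (ζ • v)
      linarith
    obtain ⟨f, hf⟩ : ∃ f : ℂ → Y, f = fun ζ => e.symm (z + ζ • v) := ⟨_, rfl⟩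
    have hfO : ∀ ζ : ℂ, ‖ζ‖ ≤ 1 → f ζ ∈ O := by
      intro ζ hζ
      rw [hf]
      exact (hball (hin ζ hζ)).2
    have hfs : ∀ ζ : ℂ, ‖ζ‖ ≤ 1 → ContMDiffAt 𝓘(ℂ, ℂ) 𝓘(ℂ, En n) ω f ζ := by
      intro ζ hζ
      have h1 : ContMDiffAt 𝓘(ℂ, En n) 𝓘(ℂ, En n) ω e.symm (z + ζ • v) := by
        have h0 := (contMDiffOn_chart_symm (I := 𝓘(ℂ, En n)) (n := ω) (x := p))
        rw [← he] at h0
        exact h0.contMDiffAt (e.open_target.mem_nhds (hball (hin ζ hζ)).1)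
      have h2 : ContMDiffAt 𝓘(ℂ, ℂ) 𝓘(ℂ, En n) ω (fun ζ : ℂ => z + ζ • v) ζ := by
        rw [contMDiffAt_iff_contDiffAt]
        exact contDiffAt_const.add (contDiffAt_id.smul contDiffAt_const)
      rw [hf]
      exact ContMDiffAt.comp ζ h1 h2
    have hfn : ∀ ζ ∈ Metric.sphere (0 : ℂ) 1, ‖ζ‖ ≤ 1 := by
      intro ζ hζ
      rw [mem_sphere_zero_iff_norm] at hζ
      exact hζ.le
    have hfc : ∀ ζ ∈ Metric.sphere (0 : ℂ) 1, ContinuousAt f ζ := fun ζ hζ =>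
      (hfs ζ (hfn ζ hζ)).continuousAt
    have hA1 := hD1 f (fun ζ hζ => ⟨hfs ζ hζ, (hOp _ (hfO ζ hζ)).1.1⟩)
    have hB1 := hD2 f (fun ζ hζ => ⟨hfs ζ hζ, (hOp _ (hfO ζ hζ)).1.2⟩)
    have hA2 : A (f 0) ≤ Real.circleAverage (fun ζ => A (f ζ)) 0 1 := by
      rw [hAdef]
      exact hA1
    have hB2 : B (f 0) ≤ Real.circleAverage (fun ζ => B (f ζ)) 0 1 := by
      rw [hBdef]
      exact hB1
    have hAi : CircleIntegrable (fun ζ => (1 - t) * A (f ζ)) 0 1 := by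
      refine ContinuousOn.circleIntegrable zero_le_one fun ζ hζ => ?_
      have h1 : ContinuousAt (fun ζ => A (f ζ)) ζ :=
        ContinuousAt.comp (hA _ (hfO ζ (hfn ζ hζ))) (hfc ζ hζ)
      exact (continuousAt_const.mul h1).continuousWithinAt
    have hBi : CircleIntegrable (fun ζ => t * B (f ζ)) 0 1 := by
      refine ContinuousOn.circleIntegrable zero_le_one fun ζ hζ => ?_
      have h1 : ContinuousAt (fun ζ => B (f ζ)) ζ :=
        ContinuousAt.comp (hB _ (hfO ζ (hfn ζ hζ))) (hfc ζ hζ)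
      exact (continuousAt_const.mul h1).continuousWithinAt
    have e1 : Real.circleAverage (fun ζ : ℂ => G (z + ζ • v)) 0 1 =
        (1 - t) * Real.circleAverage (fun ζ => A (f ζ)) 0 1 +
          t * Real.circleAverage (fun ζ => B (f ζ)) 0 1 := by
      have h1 : (fun ζ : ℂ => G (z + ζ • v)) = fun ζ => (1 - t) * A (f ζ) + t * B (f ζ) := by
        rw [hGdef, hf]
      have h3 := Real.circleAverage_fun_smul (a := 1 - t) (f := fun ζ => A (f ζ)) (c := 0) (R := 1)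
      have h4 := Real.circleAverage_fun_smul (a := t) (f := fun ζ => B (f ζ)) (c := 0) (R := 1)
      simp only [smul_eq_mul] at h3 h4
      rw [h1, Real.circleAverage_fun_add hAi hBi, h3, h4]
    have e2 : G z = (1 - t) * A (f 0) + t * B (f 0) := by
      rw [hGdef, hf]
      simp
    rw [e1, e2]
    have h5 := mul_le_mul_of_nonneg_left hA2 (by linarith : (0 : ℝ) ≤ 1 - t)
    have h6 := mul_le_mul_of_nonneg_left hB2 ht0.le
    linarith
  -- the neighbourhood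
  have hNopen : IsOpen (e.source ∩ e ⁻¹' Metric.ball (e p) (r / 2)) :=
    e.isOpen_inter_preimage Metric.isOpen_ball
  refine ⟨_, hNopen.mem_nhds ⟨hpe, Metric.mem_ball_self (half_pos hr)⟩, fun ε hε => ?_⟩
  obtain ⟨H, hHs, hH⟩ := hSm n G (e p) r hr hcont hsub ε hε
  have hNO : ∀ q ∈ e.source ∩ e ⁻¹' Metric.ball (e p) (r / 2), q ∈ O := by
    rintro q ⟨hq1, hq2⟩
    have h1 := (hball (Metric.ball_subset_ball (half_le_self hr.le) hq2)).2
    rw [mem_preimage, e.left_inv hq1] at h1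
    exact h1
  refine ⟨fun q => H (e q) - θ.pot p q + t * δ * Ω.pot p q, fun q hq => ⟨?_, ?_⟩⟩
  · unfold SM
    filter_upwards [hNopen.mem_nhds hq] with q' hq'
    obtain ⟨-, ⟨s1, s2, s3⟩, c1, c2⟩ := hOp q' (hNO q' hq')
    have hHe : ContMDiffAt 𝓘(ℝ, En n) 𝓘(ℝ, ℝ) ∞ (fun q => H (e q)) q' := by
      have h1 : ContMDiffAt 𝓘(ℝ, En n) 𝓘(ℝ, En n) ∞ e q' := by
        have h0 := (contMDiffOn_chart (I := 𝓘(ℝ, En n)) (n := ∞) (x := p))
        rw [← he] at h0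
        exact h0.contMDiffAt (e.open_source.mem_nhds hq'.1)
      have h2 : ContMDiffAt 𝓘(ℝ, En n) 𝓘(ℝ, ℝ) ∞ H (e q') :=
        contMDiffAt_iff_contDiffAt.2 hHs.contDiffAt
      exact ContMDiffAt.comp q' h2 h1
    refine ⟨(hHe.sub s1).add (contMDiffAt_const.mul s2), fun f hf hf0 => ?_⟩
    subst hf0
    have a1 : ContDiffAt ℝ 2 (fun ζ : ℂ => H (e (f ζ))) 0 := sm_comp hf hHe
    have a2 : ContDiffAt ℝ 2 (fun ζ : ℂ => θ.pot p (f ζ)) 0 := sm_comp hf s1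
    have a3 : ContDiffAt ℝ 2 (fun ζ : ℂ => Ω.pot p (f ζ)) 0 := sm_comp hf s2
    have a4 : ContDiffAt ℝ 2 ((t * δ) • fun ζ : ℂ => Ω.pot p (f ζ)) 0 := a3.const_smul (t * δ)
    have h1 : Laplacian.laplacian
        (fun ζ : ℂ => H (e (f ζ)) - θ.pot p (f ζ) + t * δ * Ω.pot p (f ζ)) 0 =
        Laplacian.laplacian (fun ζ : ℂ => H (e (f ζ))) 0 -
        Laplacian.laplacian (fun ζ : ℂ => θ.pot p (f ζ)) 0 +
        t * δ * Laplacian.laplacian (fun ζ : ℂ => Ω.pot p (f ζ)) 0 := by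
      have h2 : (fun ζ : ℂ => H (e (f ζ)) - θ.pot p (f ζ) + t * δ * Ω.pot p (f ζ)) =
          ((fun ζ : ℂ => H (e (f ζ))) - fun ζ : ℂ => θ.pot p (f ζ)) +
            (t * δ) • fun ζ : ℂ => Ω.pot p (f ζ) := rfl
      have a12 : ContDiffAt ℝ 2 ((fun ζ : ℂ => H (e (f ζ))) - fun ζ : ℂ => θ.pot p (f ζ)) 0 :=
        a1.sub a2
      rw [h2, a12.laplacian_add a4, a1.laplacian_sub a2,
        InnerProductSpace.laplacian_smul _ a3, smul_eq_mul]
    have b1 : ContMDiffAt 𝓘(ℂ, En n) 𝓘(ℂ, En n) ω e (f 0) := by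
      have h0 := (contMDiffOn_chart (I := 𝓘(ℂ, En n)) (n := ω) (x := p))
      rw [← he] at h0
      exact h0.contMDiffAt (e.open_source.mem_nhds hq'.1)
    have b2 : ContMDiffAt 𝓘(ℂ, ℂ) 𝓘(ℂ, En n) ω (e ∘ f) 0 := ContMDiffAt.comp (0 : ℂ) b1 hf
    have b3 := contMDiffAt_iff_contDiffAt.1 b2
    have b4 := (hLev n).1 H (fun ζ => e (f ζ)) b3 (hHs.contDiffAt.of_le (by norm_cast))
    have b5 := (hH (e (f 0)) hq'.2).2 (deriv (fun ζ => e (f ζ)) 0)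
    change t * δ * Ω.val f ≤ θ.val f + Laplacian.laplacian
        (fun ζ : ℂ => H (e (f ζ)) - θ.pot p (f ζ) + t * δ * Ω.pot p (f ζ)) 0
    rw [h1, b4, val_eq θ hf s1 (c1 f hf rfl), val_eq Ω hf s2 (c2 f hf rfl)]
    linarith
  · have h1 := (hH (e q) hq.2).1
    have h2 : G (e q) = θ.pot p q + ((1 - t) * φ q + t * ψ q) - t * δ * Ω.pot p q := by
      rw [hGdef]
      simp only
      rw [e.left_inv hq.1, hAdef, hBdef]
      ring
    have h3 : H (e q) - θ.pot p q + t * δ * Ω.pot p q - ((1 - t) * φ q + t * ψ q) =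
        H (e q) - G (e q) := by
      rw [h2]
      ring
    change |H (e q) - θ.pot p q + t * δ * Ω.pot p q - ((1 - t) * φ q + t * ψ q)| < ε
    rw [h3]
    exact h1

/-- **local smoothing** -/
theorem loc (hReal : StReal) (hLev : StLevN) (hSm : StSmE) (hSub : StSub2) (_ : StOp) : StLoc :=
  loc' hReal hLev hSm hSub

end Pool.Agent.Y153.RB
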