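import Pool.Agent.Y596.RB.Stm
import Pool.Agent.H440Q.W.STY
import Pool.Agent.H440Q.W.ST
import Pool.Agent.H516R2.EQP.L1
import Pool.Agent.H516R2.EQP.B
import Pool.Agent.H516R2.EQP.M1
import Pool.Agent.H516R2.EQP.M2
import Pool.Agent.H516R2.EQP.M3
import Pool.Agent.H516R2.EQP.M4
import Pool.Agent.H516R2.EQP.P1
import Pool.Agent.H516R2.EQP.P2
import Pool.Agent.H516R2.EQP.P3
import Pool.Agent.H516R2.EQP.P4
import Pool.Agent.H516R2.EQP2.L2p
import Pool.Agent.H516R2.EQP3.CMq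
import Pool.Agent.H516R2.EQP3.P5q
import Pool.Agent.H516R2.EQP3.R1q

/-!
# `S_st`: good functions cannot distinguish instances with a margin from random points
(adapted from `H440Q/W/STY.lean` and `H440Q/W/ST.lean`)
-/

set_option autoImplicit false

namespace Pool.Agent.Y153.RB

open Pool.Agent.NPC Pool.Agent.H620R2.Gauge Finset H568R2 Pool.Agent.H676 Pool.Agent.H516R2.EQP
  Pool.Agent.H516R2.EQP2 Pool.Agent.H591R3.PHG
open Pool.Agent.H516R2.EQP3 (Goods St_CMq CMq P5q R1q)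
open Pool.Agent.H440Q.W (STY_co STY_L12 STY_av STY_le_av ST_av)
open Pool.Agent.Y596.RB

theorem cmq : St_CMq :=
  CMq (M4 (M3 (M1 B) M2) (P3 B)) (P5q (P3 B) (P4 (P1 B) (P2 B) (P3 B))) (R1q B) (P3 B)

theorem st_yes {κ m : ℕ} (hm : 3 ≤ m) (hκ : 8 * m = κ) (a : U κ ⊕ U κ → Bool) (z : W κ → Bool)
    (h : |(FF a : ℝ) / 8 ^ κ - 2 / 5| ≤ (4 ^ m + 1) / 2 ^ κ) :
    YesR (Sum.elim a z : Cube κ → Bool) := by
  unfold YesR
  rw [H1_sum_elim_inl]
  have h1 := (abs_le.1 h).1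
  have hy8 : (8 : ℝ) ≤ 2 ^ m := by
    calc (8 : ℝ) = 2 ^ 3 := by norm_num
      _ ≤ 2 ^ m := pow_le_pow_right₀ (by norm_num) hm
  have p4 : (4 : ℝ) ^ m = (2 ^ m) ^ 2 := by
    rw [← pow_mul, mul_comm m 2, pow_mul]; norm_num
  have p2 : (2 : ℝ) ^ κ = (2 ^ m) ^ 8 := by
    rw [← pow_mul, mul_comm m 8, hκ]
  have h3 : ((4 : ℝ) ^ m + 1) / 2 ^ κ ≤ 1 / 20 := by
    rw [div_le_div_iff₀ (by positivity) (by norm_num), p4, p2]
    generalize (2 : ℝ) ^ m = y at hy8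
    have e1 : (8 : ℝ) ^ 6 ≤ y ^ 6 := pow_le_pow_left₀ (by norm_num) hy8 6
    have e2 : (0 : ℝ) < y ^ 2 := by positivity
    have e3 : (8 : ℝ) ^ 6 * y ^ 2 ≤ y ^ 8 := by
      calc (8 : ℝ) ^ 6 * y ^ 2 ≤ y ^ 6 * y ^ 2 := by gcongr
        _ = y ^ 8 := by ring
    have e4 : (64 : ℝ) ≤ y ^ 2 := by nlinarith
    have e5 : (8 : ℝ) ^ 6 = 262144 := by norm_num
    rw [e5] at e3
    linarith
  have h4 : (7 : ℝ) / 20 ≤ (FF a : ℝ) / 8 ^ κ := by linarith
  rw [div_le_div_iff₀ (by norm_num) (by positivity)] at h4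
  have h5 : ((7 * (8 : ℤ) ^ κ : ℤ) : ℝ) ≤ ((20 * FF a : ℤ) : ℝ) := by
    push_cast
    linarith
  exact_mod_cast h5

theorem st_true (J t m : ℕ) (hm3 : 3 ≤ m) (ht : 1 ≤ t) (hS : Small J t m)
    (Ω : Type) [Fintype Ω] [Nonempty Ω] (h : Ω → (Cube (8 * m) → Bool) → Bool) (ε : ℝ)
    (hε0 : 0 ≤ ε) (hgood : ∀ ω, Good (8 * m) t J (h ω))
    (hyes : ∀ a, YesR a → 1 - ε ≤ (∑ ω, br (h ω) a) / (Fintype.card Ω : ℝ)) :
    1 - ε - (1 / 2) ^ m ≤ (∑ ω, av (br (h ω))) / (Fintype.card Ω : ℝ) := by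
  have hl := L2p L1
  have hcm' := cmq m
  generalize hκ : 8 * m = κ at h hgood hyes hcm' ⊢
  set c : ℝ := (Fintype.card Ω : ℝ) with hc
  have hc0 : 0 < c := by rw [hc]; exact_mod_cast Fintype.card_pos
  have ht0 : (0 : ℝ) < t := by exact_mod_cast ht
  have ht1 : (1 : ℝ) ≤ t := by exact_mod_cast ht
  set q : ℝ := 1 / (24 * (t : ℝ)) with hq
  have hq0 : 0 < q := by positivity
  have hq3 : q ≤ 1 / 3 := by
    rw [hq]
    exact one_div_le_one_div_of_le (by norm_num) (by linarith)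
  have hQ0 : 0 < q ^ J := pow_pos hq0 J
  have hQ1 : q ^ J ≤ 1 := pow_le_one₀ hq0.le (by linarith)
  have hε16 : (0 : ℝ) ≤ (1 / 16) ^ κ := by positivity
  have hcU : Fintype.card (U κ) = 4 ^ κ := B_cardU κ
  set ℓ : ℝ := ((24 * (t : ℝ)) ^ J) ^ 2 * ((t : ℝ) ^ 2 + 1) with hℓ
  have hℓ0 : 0 ≤ ℓ := by positivity
  set g : (U κ ⊕ U κ → Bool) → ℝ := fun a =>
    (∑ ω, av (fun z : W κ → Bool => br (h ω) (Sum.elim a z))) / c with hg
  -- the average of `g`
  have havg : (∑ ω, av (br (h ω))) / c = av g := by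
    rw [hg, STY_av]
    congr 1
    refine Finset.sum_congr rfl fun ω _ => ?_
    rw [H1_av_sum (I := U κ ⊕ U κ) (J := W κ)]
  have hg01 : ∀ a, 0 ≤ g a ∧ g a ≤ 1 := by
    intro a
    constructor
    · exact div_nonneg (Finset.sum_nonneg fun ω _ => H1_av_nonneg fun z => (H1_br01 _ _).1) hc0.le
    · rw [hg]
      simp only
      rw [div_le_one hc0]
      calc ∑ ω, av (fun z : W κ → Bool => br (h ω) (Sum.elim a z)) ≤ ∑ _ω : Ω, (1 : ℝ) :=
            Finset.sum_le_sum fun ω _ => av_le fun z => (H1_br01 _ _).2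
        _ = c := by rw [Finset.sum_const, Finset.card_univ, nsmul_eq_mul, mul_one]
  -- (1)
  have step1 : ∀ a, |(FF a : ℝ) / 8 ^ κ - 2 / 5| ≤ (4 ^ m + 1) / 2 ^ κ → 1 - ε ≤ g a := by
    intro a ha
    have h1 : g a = av (fun z : W κ → Bool => (∑ ω, br (h ω) (Sum.elim a z)) / c) := by
      rw [STY_av (fun ω (z : W κ → Bool) => br (h ω) (Sum.elim a z)) c]
    rw [h1]
    exact STY_le_av fun z => hyes _ (st_yes hm3 hκ a z ha)
  -- (2)
  have step2 : ∀ ρ, L12 (rr g ρ) ≤ ℓ := by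
    intro ρ
    have h1 : rr g ρ = fun x => (∑ ω, av (fun z : W κ → Bool =>
        rr (br (fun a' => h ω (Sum.elim a' z))) ρ x)) / c := by
      funext x
      rfl
    rw [h1]
    refine (STY_L12 (fun ω x => av (fun z : W κ → Bool =>
        rr (br (fun a' => h ω (Sum.elim a' z))) ρ x)) hc0).trans ?_
    rw [div_le_iff₀ hc0]
    have h5 : ∀ ω, L12 (fun x => av (fun z : W κ → Bool =>
        rr (br (fun a' => h ω (Sum.elim a' z))) ρ x)) ≤ ℓ := by
      intro ω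
      refine (H1_L12_av _).trans (av_le fun z => ?_)
      have h2 := hl (U κ) t (q ^ J) ((1 / 16) ^ κ) (fun a' => h ω (Sum.elim a' z)) hQ0 hQ1 hε16
        ((hgood ω).1 z) ρ
      refine h2.trans ?_
      rw [hcU]
      have h3 : 1 / q ^ J = (24 * (t : ℝ)) ^ J := by
        rw [hq, one_div_pow, one_div_one_div]
      rw [h3]
      have h4 : ((1 : ℝ) / 16) ^ κ * (((4 ^ κ : ℕ) : ℝ)) ^ 2 ≤ 1 := by
        have h5 : (((4 ^ κ : ℕ) : ℝ)) ^ 2 = 16 ^ κ := by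
          push_cast
          rw [← pow_mul, mul_comm κ 2, pow_mul]
          norm_num
        rw [h5, ← mul_pow]
        norm_num
      rw [hℓ]
      gcongr
    calc ∑ ω, L12 (fun x => av (fun z : W κ → Bool =>
          rr (br (fun a' => h ω (Sum.elim a' z))) ρ x)) ≤ ∑ _ω : Ω, ℓ :=
          Finset.sum_le_sum fun ω _ => h5 ω
      _ = ℓ * c := by rw [Finset.sum_const, Finset.card_univ, nsmul_eq_mul, mul_comm]
  -- (3)
  have hAS : (10 + 5 * ℓ) / 4 ^ m ≤ (1 / 2) ^ m := hS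
  have hpos : 0 ≤ (10 + 5 * ℓ) / 4 ^ m := by positivity
  rw [havg]
  have hav0 : 0 ≤ av g := H1_av_nonneg fun a => (hg01 a).1
  by_cases hbig : ε ≤ 1
  · have h3 := hcm' g ℓ ε hm3 hg01 hℓ0 step2 hε0 hbig step1
    linarith
  · push Not at hbig
    have h6 : (0 : ℝ) < (1 / 2) ^ m := by positivity
    linarith

theorem flipR {κ : ℕ} (a : Cube κ → Bool) (h : YesR a) : NoR (H2_e a) := by
  unfold YesR at h
  unfold NoR
  have hsz : ∀ b : Bool, Pool.Agent.H516R2.EQP.sz (b ^^ true) = - Pool.Agent.H516R2.EQP.sz b := by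
    intro b; cases b <;> simp [Pool.Agent.H516R2.EQP.sz]
  have h1 : FF (fun i => (H2_e a) (Sum.inl i)) = - FF (fun i => a (Sum.inl i)) := by
    show FF (fun i => (a (Sum.inl i)) ^^ (H2_c (Sum.inl i : Cube κ))) = _
    unfold FF
    rw [← Finset.sum_neg_distrib]
    refine Finset.sum_congr rfl fun u _ => ?_
    rw [← Finset.sum_neg_distrib]
    refine Finset.sum_congr rfl fun v _ => ?_
    simp only [H2_c, hsz, Bool.xor_false]
    ring
  rw [h1]
  linarith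

theorem t : S_st := by
  intro J t m hm ht hS Ω _ _ h ε b hε hG hI
  cases b with
  | true =>
    refine st_true J t m hm ht hS Ω h ε hε (fun ω => ?_) (fun a ha => hI a ha)
    have h1 := hG ω (fun _ => false)
    simpa using h1
  | false =>
    have h1 := st_true J t m hm ht hS Ω (fun ω a => h ω (H2_e a)) ε hε (fun ω => hG ω H2_c)
      (fun a ha => hI (H2_e a) (flipR a ha))
    have h2 : ∀ ω, av (br (fun a => h ω (H2_e a))) = av (br (h ω)) := fun ω =>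
      ST_av (br (h ω)) H2_e
    simp only [h2] at h1
    exact h1

end Pool.Agent.Y153.RB
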